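import Pool.Agent.helper74.NL.Spec

set_option autoImplicit false

open Complex Metric Set Filter Topology MeasureTheory MPS Pool.Agent.helper98.ILF

noncomputable section

namespace NLF

/-- the branches of the inverse. -/
def CB_y (n : ℕ) (c : ℂ) (j : ℕ) (z : ℂ) : ℂ := om n ^ j * rt n (z - c)

/-- weight. -/
def CB_w (n : ℕ) (c : ℂ) (j : ℕ) (z : ℂ) : ℝ := ‖fd n (CB_y n c j z)‖ ^ 2

theorem CB_w_nonneg (n : ℕ) (c : ℂ) (j : ℕ) (z : ℂ) : 0 ≤ CB_w n c j z := by
  unfold CB_w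
  positivity

theorem CB_meas_y (n : ℕ) (c : ℂ) (j : ℕ) : Measurable (CB_y n c j) := by
  unfold CB_y rt
  fun_prop

theorem CB_meas_w (n : ℕ) (c : ℂ) (j : ℕ) : Measurable (CB_w n c j) := by
  have h := CB_meas_y n c j
  unfold CB_w fd
  fun_prop

theorem CB_w_pos {n : ℕ} (hn : 1 ≤ n) (c : ℂ) (j : ℕ) (z : ℂ) (hz : z ≠ c) : 0 < CB_w n c j z := by
  have h1 : om n ≠ 0 := Complex.exp_ne_zero _
  have h2 : rt n (z - c) ≠ 0 := by
    unfold rt
    rw [Ne, Complex.cpow_eq_zero_iff]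
    intro h
    exact hz (sub_eq_zero.mp h.1)
  have h3 : CB_y n c j z ≠ 0 := mul_ne_zero (pow_ne_zero _ h1) h2
  have h4 : fd n (CB_y n c j z) ≠ 0 := by
    unfold fd
    refine mul_ne_zero ?_ (pow_ne_zero _ h3)
    exact_mod_cast (by omega : n ≠ 0)
  unfold CB_w
  have h5 : 0 < ‖fd n (CB_y n c j z)‖ := norm_pos_iff.mpr h4
  positivity

/-- transfer of a real function. -/
def CB_T (n : ℕ) (c : ℂ) (G : ℂ → ℝ) (z : ℂ) : ℝ :=
  ∑ j ∈ Finset.range n, G (CB_y n c j z) / CB_w n c j z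

theorem CB_T_meas (n : ℕ) (c : ℂ) {G : ℂ → ℝ} (hG : Measurable G) : Measurable (CB_T n c G) := by
  unfold CB_T
  refine Finset.measurable_fun_sum _ fun j _ => ?_
  exact (hG.comp (CB_meas_y n c j)).div (CB_meas_w n c j)

theorem CB_T_nonneg (n : ℕ) (c : ℂ) {G : ℂ → ℝ} (hG : ∀ y, 0 ≤ G y) (z : ℂ) : 0 ≤ CB_T n c G z := by
  unfold CB_T
  exact Finset.sum_nonneg fun j _ => div_nonneg (hG _) (CB_w_nonneg n c j z)

theorem CB_ae_ne (c : ℂ) : ∀ᵐ z : ℂ, z ≠ c := by
  rw [ae_iff]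
  simp

theorem CB_lint (hM : MCV_stmt) {n : ℕ} (hn : 1 ≤ n) (c : ℂ) {G : ℂ → ℝ} (hG : Measurable G)
    (hG0 : ∀ y, 0 ≤ G y) {K : Set ℂ} (hK : MeasurableSet K) :
    ∫⁻ z in K, ENNReal.ofReal (CB_T n c G z) =
      ∫⁻ y in {y : ℂ | y ^ n + c ∈ K}, ENNReal.ofReal (G y) := by
  rw [← hM n c hn (fun y => ENNReal.ofReal (G y)) K hG.ennreal_ofReal hK]
  apply lintegral_congr_ae
  filter_upwards [ae_restrict_of_ae (CB_ae_ne c)] with z hz
  unfold CB_T
  rw [ENNReal.ofReal_sum_of_nonneg fun j _ => div_nonneg (hG0 _) (CB_w_nonneg n c j z)]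
  refine Finset.sum_congr rfl fun j _ => ?_
  rw [ENNReal.ofReal_div_of_pos (CB_w_pos hn c j z hz)]
  rfl

theorem CB_pos_int (hM : MCV_stmt) {n : ℕ} (hn : 1 ≤ n) (c : ℂ) {G : ℂ → ℝ} (hG : Measurable G)
    (hG0 : ∀ y, 0 ≤ G y) {K : Set ℂ} (hK : MeasurableSet K)
    (hI : IntegrableOn G {y : ℂ | y ^ n + c ∈ K}) :
    IntegrableOn (CB_T n c G) K ∧
      ∫ z in K, CB_T n c G z = ∫ y in {y : ℂ | y ^ n + c ∈ K}, G y := by
  have h1 := CB_lint hM hn c hG hG0 hK
  have h2 : ∫⁻ y in {y : ℂ | y ^ n + c ∈ K}, ENNReal.ofReal (G y) < ⊤ := by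
    have h3 := hI.2
    rw [hasFiniteIntegral_iff_ofReal (Eventually.of_forall hG0)] at h3
    exact h3
  refine ⟨⟨(CB_T_meas n c hG).aestronglyMeasurable, ?_⟩, ?_⟩
  · rw [hasFiniteIntegral_iff_ofReal (Eventually.of_forall (CB_T_nonneg n c hG0)), h1]
    exact h2
  · rw [integral_eq_lintegral_of_nonneg_ae (Eventually.of_forall (CB_T_nonneg n c hG0))
      (CB_T_meas n c hG).aestronglyMeasurable, h1,
      integral_eq_lintegral_of_nonneg_ae (Eventually.of_forall hG0) hG.aestronglyMeasurable]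

theorem CB_real_int (hM : MCV_stmt) {n : ℕ} (hn : 1 ≤ n) (c : ℂ) {G : ℂ → ℝ} (hG : Measurable G)
    {K : Set ℂ} (hK : MeasurableSet K) (hI : IntegrableOn G {y : ℂ | y ^ n + c ∈ K}) :
    IntegrableOn (CB_T n c G) K ∧
      ∫ z in K, CB_T n c G z = ∫ y in {y : ℂ | y ^ n + c ∈ K}, G y := by
  have hp := CB_pos_int hM hn c (G := fun y => max (G y) 0) (hG.max measurable_const)
    (fun y => le_max_right _ _) hK hI.pos_part
  have hm := CB_pos_int hM hn c (G := fun y => max (-G y) 0) (hG.neg.max measurable_const)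
    (fun y => le_max_right _ _) hK hI.neg_part
  have hdec : ∀ y, G y = max (G y) 0 - max (-G y) 0 := by
    intro y
    rcases le_total 0 (G y) with h | h
    · rw [max_eq_left h, max_eq_right (by linarith)]
      ring
    · rw [max_eq_right h, max_eq_left (by linarith)]
      ring
  have hT : CB_T n c G = fun z => CB_T n c (fun y => max (G y) 0) z -
      CB_T n c (fun y => max (-G y) 0) z := by
    funext z
    unfold CB_T
    rw [← Finset.sum_sub_distrib]
    refine Finset.sum_congr rfl fun j _ => ?_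
    rw [← sub_div, ← hdec]
  have hGG : (fun y => G y) = fun y => max (G y) 0 - max (-G y) 0 := by
    funext y
    exact hdec y
  refine ⟨?_, ?_⟩
  · rw [hT]
    exact hp.1.sub hm.1
  · rw [hT, integral_sub hp.1 hm.1, hp.2, hm.2, hGG, integral_sub hI.pos_part hI.neg_part]

theorem CB (hM : MCV_stmt) : CB_stmt := by
  intro n c hn F K hF hK hI
  have hre := CB_real_int hM hn c (G := fun y => (F y).re) hF.re hK hI.re
  have him := CB_real_int hM hn c (G := fun y => (F y).im) hF.im hK hI.im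
  have hT : (fun z => ∑ j ∈ Finset.range n, F (om n ^ j * rt n (z - c)) /
      ((‖fd n (om n ^ j * rt n (z - c))‖ ^ 2 : ℝ) : ℂ)) =
      fun z => ((CB_T n c (fun y => (F y).re) z : ℝ) : ℂ) +
        ((CB_T n c (fun y => (F y).im) z : ℝ) : ℂ) * I := by
    funext z
    unfold CB_T
    rw [Complex.ofReal_sum, Complex.ofReal_sum, Finset.sum_mul, ← Finset.sum_add_distrib]
    refine Finset.sum_congr rfl fun j _ => ?_
    rw [Complex.ofReal_div, Complex.ofReal_div, div_mul_eq_mul_div, ← add_div]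
    rw [Complex.re_add_im]
    rfl
  have hA : Integrable (fun z => ((CB_T n c (fun y => (F y).re) z : ℝ) : ℂ)) (volume.restrict K) :=
    hre.1.ofReal
  have hB : Integrable (fun z => ((CB_T n c (fun y => (F y).im) z : ℝ) : ℂ) * I)
      (volume.restrict K) := him.1.ofReal.mul_const I
  refine ⟨?_, ?_⟩
  · rw [hT]
    exact hA.add hB
  · rw [hT, integral_add hA hB, integral_mul_const,
      integral_complex_ofReal, integral_complex_ofReal, hre.2, him.2]
    have hI1 : IntegrableOn (fun y => (((F y).re : ℝ) : ℂ)) {y : ℂ | y ^ n + c ∈ K} := hI.re.ofReal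
    have hI2 : IntegrableOn (fun y => (((F y).im : ℝ) : ℂ) * I) {y : ℂ | y ^ n + c ∈ K} :=
      hI.im.ofReal.mul_const I
    have hF3 : ∫ y in {y : ℂ | y ^ n + c ∈ K}, F y =
        ∫ y in {y : ℂ | y ^ n + c ∈ K}, ((((F y).re : ℝ) : ℂ) + (((F y).im : ℝ) : ℂ) * I) := by
      simp only [Complex.re_add_im]
    rw [hF3, integral_add hI1 hI2, integral_mul_const, integral_complex_ofReal, integral_complex_ofReal]

end NLF
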